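import Mathlib

/-!
# Cross-Sperner families: counting lemmas for unions of down-sets
-/

set_option autoImplicit false

namespace Pool.Agent.R101.CS

open Finset

variable {V : Type*} [Fintype V] [DecidableEq V]

/-- the family of all unions -/
def un (X Y : Finset (Finset V)) : Finset (Finset V) := (X ×ˢ Y).image fun p => p.1 ∪ p.2

omit [Fintype V] in
lemma mem_un {X Y : Finset (Finset V)} {C : Finset V} :
    C ∈ un X Y ↔ ∃ P ∈ X, ∃ Q ∈ Y, P ∪ Q = C := by
  unfold un
  rw [mem_image]
  constructor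
  · rintro ⟨⟨P, Q⟩, h, rfl⟩
    rw [mem_product] at h
    exact ⟨P, h.1, Q, h.2, rfl⟩
  · rintro ⟨P, hP, Q, hQ, rfl⟩
    exact ⟨(P, Q), mem_product.2 ⟨hP, hQ⟩, rfl⟩

/-- down-sets -/
def Low (X : Finset (Finset V)) : Prop := ∀ S ∈ X, ∀ T, T ⊆ S → T ∈ X

/-- the number of members containing `i` -/
def d1 (X : Finset (Finset V)) (i : V) : ℕ := #(X.filter fun P => i ∈ P)

/-- the number of members not containing `i` -/
def d0 (X : Finset (Finset V)) (i : V) : ℕ := #(X.filter fun P => i ∉ P)

/-- the number of members that cannot be extended by `i` -/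
def db (X : Finset (Finset V)) (i : V) : ℕ := #(X.filter fun P => insert i P ∉ X)

omit [Fintype V] in
lemma d1_add_d0 (X : Finset (Finset V)) (i : V) : d1 X i + d0 X i = #X := by
  unfold d1 d0
  exact card_filter_add_card_filter_not (fun P : Finset V => i ∈ P)

omit [Fintype V] in
lemma db_add {X : Finset (Finset V)} (hX : Low X) (i : V) : db X i + 2 * d1 X i = #X := by
  have h1 : #(X.filter fun P => insert i P ∈ X) + #(X.filter fun P => insert i P ∉ X) = #X :=
    card_filter_add_card_filter_not (fun P : Finset V => insert i P ∈ X)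
  have h2 : #(X.filter fun P => insert i P ∈ X) = 2 * d1 X i := by
    have h3 : (X.filter fun P => insert i P ∈ X) =
        (X.filter fun P => i ∈ P) ∪ (X.filter fun P => i ∈ P).image (fun P => P.erase i) := by
      ext P
      simp only [mem_filter, mem_union, mem_image]
      constructor
      · rintro ⟨hP, hiP⟩
        by_cases hi : i ∈ P
        · exact Or.inl ⟨hP, hi⟩
        · exact Or.inr ⟨insert i P, ⟨hiP, mem_insert_self _ _⟩, erase_insert hi⟩
      · rintro (⟨hP, hi⟩ | ⟨Q, ⟨hQ, hi⟩, rfl⟩)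
        · exact ⟨hP, by rwa [insert_eq_self.2 hi]⟩
        · exact ⟨hX Q hQ _ (erase_subset _ _), by rwa [insert_erase hi]⟩
    rw [h3, card_union_of_disjoint, card_image_of_injOn]
    · unfold d1; ring
    · intro P hP Q hQ hPQ
      simp only [coe_filter, Set.mem_ofPred_eq] at hP hQ
      have : insert i (P.erase i) = insert i (Q.erase i) := by
        show insert i ((fun P => P.erase i) P) = insert i ((fun P => P.erase i) Q)
        rw [hPQ]
      rwa [insert_erase hP.2, insert_erase hQ.2] at this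
    · rw [disjoint_left]
      intro P hP hP2
      rw [mem_filter] at hP
      rw [mem_image] at hP2
      obtain ⟨Q, _, rfl⟩ := hP2
      exact absurd hP.2 (notMem_erase _ _)
  unfold db
  omega

omit [Fintype V] in
/-- the unions containing a given point -/
lemma coord {X Y : Finset (Finset V)} (hY : Low Y) (i : V) :
    #((un X Y).filter fun C => i ∈ C) ≤ d1 X i * d0 Y i + db X i * d1 Y i := by
  have h1 : ((un X Y).filter fun C => i ∈ C) ⊆
      un (X.filter fun P => i ∈ P) (Y.filter fun P => i ∉ P) ∪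
      un (X.filter fun P => insert i P ∉ X) (Y.filter fun P => i ∈ P) := by
    intro C hC
    rw [mem_filter, mem_un] at hC
    obtain ⟨⟨P, hP, Q, hQ, rfl⟩, hi⟩ := hC
    rw [mem_union, mem_un, mem_un]
    by_cases hPi : insert i P ∈ X
    · left
      refine ⟨insert i P, mem_filter.2 ⟨hPi, mem_insert_self _ _⟩, Q.erase i,
        mem_filter.2 ⟨hY Q hQ _ (erase_subset _ _), notMem_erase _ _⟩, ?_⟩
      ext j
      simp only [mem_union, mem_insert, mem_erase]
      rw [mem_union] at hi
      by_cases hj : j = i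
      · subst hj; simp [hi]
      · simp [hj]
    · right
      have hiP : i ∉ P := by
        intro h
        rw [insert_eq_self.2 h] at hPi
        exact hPi hP
      refine ⟨P, mem_filter.2 ⟨hP, hPi⟩, Q, mem_filter.2 ⟨hQ, ?_⟩, rfl⟩
      rw [mem_union] at hi
      exact hi.resolve_left hiP
  have hc : ∀ S T : Finset (Finset V), #(un S T) ≤ #S * #T := by
    intro S T
    unfold un
    exact card_image_le.trans (card_product _ _).le
  calc _ ≤ _ := card_le_card h1
    _ ≤ _ := card_union_le _ _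
    _ ≤ _ := Nat.add_le_add (hc _ _) (hc _ _)

/-- a point of `Q` outside `J` -/
noncomputable def pt (J Q : Finset V) (h : ¬ Q ⊆ J) : V := (not_subset.1 h).choose

omit [Fintype V] [DecidableEq V] in
lemma pt_mem (J Q : Finset V) (h : ¬ Q ⊆ J) : pt J Q h ∈ Q ∧ pt J Q h ∉ J :=
  (not_subset.1 h).choose_spec

/-- good pairs -/
def Good (X Y : Finset (Finset V)) (I J P Q : Finset V) : Prop :=
  (∀ h : ¬ Q ⊆ J, insert (pt J Q h) P ∉ X) ∧ (∀ h : ¬ P ⊆ I, insert (pt I P h) Q ∉ Y)

omit [Fintype V] in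
lemma exists_good {X Y : Finset (Finset V)} (hX : Low X) (hY : Low Y) {I J : Finset V}
    (hIJ : Disjoint I J) : ∀ (m : ℕ) (P Q : Finset V), #(Q \ J) + #(P \ I) = m → P ∈ X → Q ∈ Y →
      (∀ j ∈ P ∪ Q, j ∈ I ∨ j ∈ J) → ∃ P' ∈ X, ∃ Q' ∈ Y, P' ∪ Q' = P ∪ Q ∧ Good X Y I J P' Q' := by
  intro m
  induction m using Nat.strong_induction_on with
  | _ m ih =>
    intro P Q hm hP hQ hcov
    by_cases hg : Good X Y I J P Q
    · exact ⟨P, hP, Q, hQ, rfl, hg⟩
    · unfold Good at hg
      rw [not_and_or] at hg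
      rcases hg with hg | hg
      · push Not at hg
        obtain ⟨h, hin⟩ := hg
        obtain ⟨hi1, hi2⟩ := pt_mem J Q h
        set i := pt J Q h
        have hiI : i ∈ I := (hcov i (mem_union_right _ hi1)).resolve_right hi2
        have hu : insert i P ∪ Q.erase i = P ∪ Q := by
          ext j
          simp only [mem_union, mem_insert, mem_erase]
          by_cases hj : j = i
          · subst hj; simp [hi1]
          · simp [hj]
        have hc1 : #(Q.erase i \ J) < #(Q \ J) := by
          apply card_lt_card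
          rw [ssubset_iff_of_subset]
          · exact ⟨i, mem_sdiff.2 ⟨hi1, hi2⟩, fun h => by
              rw [mem_sdiff, mem_erase] at h; exact h.1.1 rfl⟩
          · intro j hj
            rw [mem_sdiff, mem_erase] at hj
            exact mem_sdiff.2 ⟨hj.1.2, hj.2⟩
        have hc2 : #(insert i P \ I) ≤ #(P \ I) := by
          apply card_le_card
          intro j hj
          rw [mem_sdiff, mem_insert] at hj
          rcases hj with ⟨rfl | hj, hjI⟩
          · exact absurd hiI hjI
          · exact mem_sdiff.2 ⟨hj, hjI⟩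
        obtain ⟨P', hP', Q', hQ', h1, h2⟩ := ih (#(Q.erase i \ J) + #(insert i P \ I)) (by omega)
          (insert i P) (Q.erase i) rfl hin (hY Q hQ _ (erase_subset _ _)) (by rw [hu]; exact hcov)
        exact ⟨P', hP', Q', hQ', h1.trans hu, h2⟩
      · push Not at hg
        obtain ⟨h, hin⟩ := hg
        obtain ⟨hi1, hi2⟩ := pt_mem I P h
        set i := pt I P h
        have hiJ : i ∈ J := (hcov i (mem_union_left _ hi1)).resolve_left hi2
        have hu : P.erase i ∪ insert i Q = P ∪ Q := by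
          ext j
          simp only [mem_union, mem_insert, mem_erase]
          by_cases hj : j = i
          · subst hj; simp [hi1]
          · simp [hj]
        have hc1 : #(P.erase i \ I) < #(P \ I) := by
          apply card_lt_card
          rw [ssubset_iff_of_subset]
          · exact ⟨i, mem_sdiff.2 ⟨hi1, hi2⟩, fun h => by
              rw [mem_sdiff, mem_erase] at h; exact h.1.1 rfl⟩
          · intro j hj
            rw [mem_sdiff, mem_erase] at hj
            exact mem_sdiff.2 ⟨hj.1.2, hj.2⟩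
        have hc2 : #(insert i Q \ J) ≤ #(Q \ J) := by
          apply card_le_card
          intro j hj
          rw [mem_sdiff, mem_insert] at hj
          rcases hj with ⟨rfl | hj, hjI⟩
          · exact absurd hiJ hjI
          · exact mem_sdiff.2 ⟨hj, hjI⟩
        obtain ⟨P', hP', Q', hQ', h1, h2⟩ := ih (#(insert i Q \ J) + #(P.erase i \ I)) (by omega)
          (P.erase i) (insert i Q) rfl (hX P hP _ (erase_subset _ _)) hin
          (by rw [hu]; exact hcov)
        exact ⟨P', hP', Q', hQ', h1.trans hu, h2⟩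

/-- the pairs of the second kind: `Q` is not inside `J` and `P` cannot be extended -/
noncomputable def bad1 (X Y : Finset (Finset V)) (J : Finset V) : Finset (Finset V × Finset V) := by
  classical
  exact (X ×ˢ Y).filter fun p => ∃ h : ¬ p.2 ⊆ J, insert (pt J p.2 h) p.1 ∉ X

omit [Fintype V] in
lemma card_bad1 {X Y : Finset (Finset V)} {J : Finset V} {D : ℕ}
    (hD : ∀ i, i ∉ J → db X i ≤ D) : #(bad1 X Y J) ≤ #(Y.filter fun Q => ¬ Q ⊆ J) * D := by
  classical
  have h1 : bad1 X Y J ⊆ (Y.filter fun Q => ¬ Q ⊆ J).biUnion fun Q =>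
      ((X.filter fun P => ∃ h : ¬ Q ⊆ J, insert (pt J Q h) P ∉ X).image fun P => (P, Q)) := by
    intro p hp
    unfold bad1 at hp
    rw [mem_filter, mem_product] at hp
    obtain ⟨⟨hp1, hp2⟩, h, h3⟩ := hp
    rw [mem_biUnion]
    exact ⟨p.2, mem_filter.2 ⟨hp2, h⟩, mem_image.2 ⟨p.1, mem_filter.2 ⟨hp1, h, h3⟩, rfl⟩⟩
  refine (card_le_card h1).trans (card_biUnion_le.trans ?_)
  refine (sum_le_card_nsmul _ _ D ?_).trans (by rw [smul_eq_mul])
  intro Q hQ
  refine card_image_le.trans ?_
  have hQJ : ¬ Q ⊆ J := (mem_filter.1 hQ).2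
  refine le_trans (card_le_card ?_) (hD (pt J Q hQJ) (pt_mem J Q hQJ).2)
  intro P hP
  rw [mem_filter] at hP ⊢
  obtain ⟨hP1, h, h2⟩ := hP
  exact ⟨hP1, h2⟩

omit [Fintype V] in
/-- the number of unions, two-sided bound -/
lemma good_count {X Y : Finset (Finset V)} (hX : Low X) (hY : Low Y) {I J : Finset V}
    (hIJ : Disjoint I J) (hcov : ∀ j, j ∈ I ∨ j ∈ J) {D E : ℕ}
    (hD : ∀ i, i ∉ J → db X i ≤ D) (hE : ∀ i, i ∉ I → db Y i ≤ E) :
    #(un X Y) ≤ #(X.filter fun P => P ⊆ I) * #(Y.filter fun Q => Q ⊆ J) +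
      #(Y.filter fun Q => ¬ Q ⊆ J) * D + #(X.filter fun P => ¬ P ⊆ I) * E ∧
    #(un X Y) ≤ #X * #(Y.filter fun Q => Q ⊆ J) + #(Y.filter fun Q => ¬ Q ⊆ J) * D ∧
    #(un X Y) ≤ #(X.filter fun P => P ⊆ I) * #Y + #(X.filter fun P => ¬ P ⊆ I) * E := by
  classical
  have key : ∀ C ∈ un X Y, ∃ P ∈ X, ∃ Q ∈ Y, P ∪ Q = C ∧ Good X Y I J P Q := by
    intro C hC
    rw [mem_un] at hC
    obtain ⟨P, hP, Q, hQ, rfl⟩ := hC
    exact exists_good hX hY hIJ _ P Q rfl hP hQ (fun j _ => hcov j)
  have b1 := card_bad1 (X := X) (Y := Y) hD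
  have b2 : #((bad1 Y X I).image fun p => (p.2, p.1)) ≤ #(X.filter fun P => ¬ P ⊆ I) * E :=
    card_image_le.trans (card_bad1 (X := Y) (Y := X) hE)
  refine ⟨?_, ?_, ?_⟩
  · have h1 : un X Y ⊆ (((X.filter fun P => P ⊆ I) ×ˢ (Y.filter fun Q => Q ⊆ J)) ∪ bad1 X Y J ∪
        (bad1 Y X I).image fun p => (p.2, p.1)).image fun p => p.1 ∪ p.2 := by
      intro C hC
      obtain ⟨P, hP, Q, hQ, hPQ, hg1, hg2⟩ := key C hC
      rw [mem_image]
      refine ⟨(P, Q), ?_, hPQ⟩
      rw [mem_union, mem_union]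
      by_cases h1 : Q ⊆ J
      · by_cases h2 : P ⊆ I
        · left; left
          exact mem_product.2 ⟨mem_filter.2 ⟨hP, h2⟩, mem_filter.2 ⟨hQ, h1⟩⟩
        · right
          rw [mem_image]
          refine ⟨(Q, P), ?_, rfl⟩
          unfold bad1
          exact mem_filter.2 ⟨mem_product.2 ⟨hQ, hP⟩, h2, hg2 h2⟩
      · left; right
        unfold bad1
        exact mem_filter.2 ⟨mem_product.2 ⟨hP, hQ⟩, h1, hg1 h1⟩
    refine (card_le_card h1).trans (card_image_le.trans ((card_union_le _ _).trans ?_))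
    refine Nat.add_le_add ((card_union_le _ _).trans ?_) b2
    exact Nat.add_le_add (card_product _ _).le b1
  · have h1 : un X Y ⊆ ((X ×ˢ (Y.filter fun Q => Q ⊆ J)) ∪ bad1 X Y J).image
        fun p => p.1 ∪ p.2 := by
      intro C hC
      obtain ⟨P, hP, Q, hQ, hPQ, hg1, hg2⟩ := key C hC
      rw [mem_image]
      refine ⟨(P, Q), ?_, hPQ⟩
      rw [mem_union]
      by_cases h1 : Q ⊆ J
      · left
        exact mem_product.2 ⟨hP, mem_filter.2 ⟨hQ, h1⟩⟩
      · right
        unfold bad1
        exact mem_filter.2 ⟨mem_product.2 ⟨hP, hQ⟩, h1, hg1 h1⟩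
    refine (card_le_card h1).trans (card_image_le.trans ((card_union_le _ _).trans ?_))
    exact Nat.add_le_add (card_product _ _).le b1
  · have h1 : un X Y ⊆ (((X.filter fun P => P ⊆ I) ×ˢ Y) ∪
        (bad1 Y X I).image fun p => (p.2, p.1)).image fun p => p.1 ∪ p.2 := by
      intro C hC
      obtain ⟨P, hP, Q, hQ, hPQ, hg1, hg2⟩ := key C hC
      rw [mem_image]
      refine ⟨(P, Q), ?_, hPQ⟩
      rw [mem_union]
      by_cases h1 : P ⊆ I
      · left
        exact mem_product.2 ⟨mem_filter.2 ⟨hP, h1⟩, hQ⟩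
      · right
        rw [mem_image]
        refine ⟨(Q, P), ?_, rfl⟩
        unfold bad1
        exact mem_filter.2 ⟨mem_product.2 ⟨hQ, hP⟩, h1, hg2 h1⟩
    refine (card_le_card h1).trans (card_image_le.trans ((card_union_le _ _).trans ?_))
    exact Nat.add_le_add (card_product _ _).le b2

end Pool.Agent.R101.CS
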