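import Pool.Agent.R101.CrossSperner1

/-!
# Cross-Sperner families: rows and columns
-/

set_option autoImplicit false

namespace Pool.Agent.R101.CS

open Finset

variable {V : Type*} [DecidableEq V]

lemma split {I J S T : Finset V} (hIJ : Disjoint I J) (hS : S ⊆ I) (hT : T ⊆ J) :
    (S ∪ T) ∩ I = S ∧ (S ∪ T) ∩ J = T := by
  rw [disjoint_left] at hIJ
  constructor
  · ext j
    simp only [mem_inter, mem_union]
    constructor
    · rintro ⟨h | h, h2⟩
      · exact h
      · exact absurd (hT h) (hIJ h2)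
    · intro h
      exact ⟨Or.inl h, hS h⟩
  · ext j
    simp only [mem_inter, mem_union]
    constructor
    · rintro ⟨h | h, h2⟩
      · exact absurd h2 (hIJ (hS h))
      · exact h
    · intro h
      exact ⟨Or.inr h, hT h⟩

lemma inter_empty {I J A : Finset V} (hIJ : Disjoint I J) (hA : A ⊆ J) : A ∩ I = ∅ := by
  rw [disjoint_left] at hIJ
  rw [eq_empty_iff_forall_notMem]
  intro j hj
  rw [mem_inter] at hj
  exact hIJ hj.2 (hA hj.1)

/-- the sets `T ⊆ J` that contain no trace of a member of `W` with trace `S` -/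
def Unc (W : Finset (Finset V)) (I J S : Finset V) : Finset (Finset V) :=
  J.powerset.filter fun T => ∀ P ∈ W, P ∩ I = S → ¬ P ∩ J ⊆ T

lemma unc_card {W : Finset (Finset V)} {I J : Finset V} (hcov : ∀ j, j ∈ I ∨ j ∈ J)
    (hW : ∀ P ∈ W, ¬ P ⊆ I) (S : Finset V) :
    2 ^ #J ≤ 2 ^ #(W.filter fun P => P ∩ I = S) * #(Unc W I J S) := by
  classical
  obtain ⟨p, hp⟩ : ∃ p : Finset V → Finset V, ∀ P ∈ W, #(p P) = 1 ∧ p P ⊆ P ∩ J := by
    have : ∀ P, ∃ q : Finset V, P ∈ W → #q = 1 ∧ q ⊆ P ∩ J := by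
      intro P
      by_cases hP : P ∈ W
      · obtain ⟨j, hj1, hj2⟩ := not_subset.1 (hW P hP)
        exact ⟨{j}, fun _ => ⟨card_singleton _, by
          rw [singleton_subset_iff, mem_inter]; exact ⟨hj1, (hcov j).resolve_left hj2⟩⟩⟩
      · exact ⟨∅, fun h => absurd h hP⟩
    choose p hp using this
    exact ⟨p, fun P hP => hp P hP⟩
  set F := W.filter fun P => P ∩ I = S
  obtain ⟨im, him⟩ : ∃ im : Finset V, im = F.biUnion p := ⟨_, rfl⟩
  have h1 : im.card ≤ #F := by
    rw [him]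
    refine card_biUnion_le.trans ?_
    calc ∑ P ∈ F, #(p P) = ∑ P ∈ F, 1 := sum_congr rfl fun P hP => (hp P (mem_filter.1 hP).1).1
      _ = #F := by simp
      _ ≤ #F := le_rfl
  have h2 : (J \ im).powerset ⊆ Unc W I J S := by
    intro T hT
    rw [mem_powerset] at hT
    unfold Unc
    rw [mem_filter, mem_powerset]
    refine ⟨hT.trans sdiff_subset, ?_⟩
    intro P hP hPS hPT
    obtain ⟨h3, h4⟩ := hp P hP
    obtain ⟨j, hj⟩ := card_pos.1 (by rw [h3]; exact one_pos : 0 < #(p P))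
    have h5 := hT (hPT (h4 hj))
    rw [mem_sdiff, him, mem_biUnion] at h5
    exact h5.2 ⟨P, mem_filter.2 ⟨hP, hPS⟩, hj⟩
  have h3 := card_le_card h2
  rw [card_powerset] at h3
  have h4 : #J ≤ #F + #(J \ im) := by
    have := card_le_card (show J ⊆ (J \ im) ∪ im by
      intro j hj
      by_cases h : j ∈ im
      · exact mem_union_right _ h
      · exact mem_union_left _ (mem_sdiff.2 ⟨hj, h⟩))
    have h6 := card_union_le (J \ im) im
    omega
  calc 2 ^ #J ≤ 2 ^ (#F + #(J \ im)) := Nat.pow_le_pow_right (by norm_num) h4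
    _ = 2 ^ #F * 2 ^ #(J \ im) := pow_add _ _ _
    _ ≤ _ := Nat.mul_le_mul_left _ h3

/-- the linear form of the bound -/
lemma unc_lin {W : Finset (Finset V)} {I J : Finset V} (hcov : ∀ j, j ∈ I ∨ j ∈ J)
    (hW : ∀ P ∈ W, ¬ P ⊆ I) (S : Finset V) :
    (2 : ℤ) ^ #J * (3 - #(W.filter fun P => P ∩ I = S)) ≤ 4 * #(Unc W I J S) := by
  have h := unc_card hcov hW S
  have hp : (0 : ℤ) < 2 ^ #J := by positivity
  set r := #(W.filter fun P => P ∩ I = S)
  set u := #(Unc W I J S)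
  have h' : (2 : ℤ) ^ #J ≤ 2 ^ r * u := by exact_mod_cast h
  have hu : (0 : ℤ) ≤ u := by positivity
  rcases Nat.lt_or_ge r 3 with hr | hr
  · interval_cases r
    · norm_num at h' ⊢; linarith
    · norm_num at h' ⊢; linarith
    · norm_num at h' ⊢; linarith
  · have : (3 : ℤ) - r ≤ 0 := by
      have : (3 : ℤ) ≤ r := by exact_mod_cast hr
      linarith
    nlinarith

/-- counting in rows -/
lemma rows {M A B : Finset (Finset V)} {I J : Finset V} (hIJ : Disjoint I J)
    (hcov : ∀ j, j ∈ I ∨ j ∈ J) (h0 : ∅ ∈ M) (hA : A ⊆ M) (hB : B ⊆ M) (hAB : Disjoint A B)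
    (hU : ∀ C, C ∉ M → ∃ a ∈ A, ∃ b ∈ B, a ∪ b = C) {k w : ℕ}
    (hk : k = #(I.powerset.filter fun S => S ∉ M))
    (hw : w = #(M.filter fun P => ¬ P ⊆ I ∧ ¬ P ⊆ J)) :
    (2 : ℤ) ^ #J * (3 * k - w) ≤ 4 * k + 4 * k * w + w ^ 2 := by
  classical
  obtain ⟨W, hWd⟩ : ∃ W : Finset (Finset V), W = M.filter fun P => ¬ P ⊆ I ∧ ¬ P ⊆ J := ⟨_, rfl⟩
  obtain ⟨K, hKd⟩ : ∃ K : Finset (Finset V), K = I.powerset.filter fun S => S ∉ M := ⟨_, rfl⟩
  rw [← hWd] at hw
  rw [← hKd] at hk
  have hWI : ∀ P ∈ W, ¬ P ⊆ I := by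
    intro P hP; rw [hWd, mem_filter] at hP; exact hP.2.1
  have hKmem : ∀ S ∈ K, S ⊆ I ∧ S ∉ M := by
    intro S hS; rw [hKd, mem_filter, mem_powerset] at hS; exact hS
  -- the cells
  obtain ⟨T3, hT3⟩ : ∃ T3 : Finset (Finset V × Finset V), T3 =
      ((A ∩ W) ×ˢ (B ∩ W)).image fun p => ((p.1 ∪ p.2) ∩ I, (p.1 ∪ p.2) ∩ J) := ⟨_, rfl⟩
  obtain ⟨Tg, hTg⟩ : ∃ Tg : Finset (Finset V × Finset V), Tg = (K.image fun S => (S, ∅)) ∪
      ((K ×ˢ W).image fun p => (p.1, p.2 ∩ J)) ∪ T3 := ⟨_, rfl⟩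
  have hcell : ∀ S ∈ K, ∀ T ∈ Unc W I J S, (S, T) ∈ Tg := by
    intro S hS T hT
    obtain ⟨hSI, hSM⟩ := hKmem S hS
    unfold Unc at hT
    rw [mem_filter, mem_powerset] at hT
    obtain ⟨hTJ, hT2⟩ := hT
    obtain ⟨s1, s2⟩ := split hIJ hSI hTJ
    have hSne : S ≠ ∅ := fun h => hSM (h ▸ h0)
    have hCM : S ∪ T ∉ M := by
      intro hC
      by_cases hTe : T = ∅
      · rw [hTe, union_empty] at hC; exact hSM hC
      · have hCW : S ∪ T ∈ W := by
          rw [hWd, mem_filter]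
          refine ⟨hC, ?_, ?_⟩
          · intro h
            rw [inter_eq_left.2 h] at s1
            have : T ⊆ I := by rw [← s1] at hSI; exact subset_union_right.trans hSI
            have h2 := inter_empty hIJ hTJ
            rw [inter_eq_left.2 this] at h2
            exact hTe h2
          · intro h
            rw [inter_eq_left.2 h] at s2
            have : S ⊆ J := by rw [← s2] at hTJ; exact subset_union_left.trans hTJ
            have h2 := inter_empty hIJ.symm hSI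
            rw [inter_eq_left.2 this] at h2
            exact hSne h2
        exact hT2 _ hCW s1 (by rw [s2])
    obtain ⟨a, ha, b, hb, hab⟩ := hU _ hCM
    have hSe : (a ∪ b) ∩ I = S := by rw [hab]; exact s1
    have hTe : (a ∪ b) ∩ J = T := by rw [hab]; exact s2
    rw [union_inter_distrib_right] at hSe hTe
    have hcl : ∀ P, P ⊆ I ∨ (P ⊆ J) ∨ (P ∈ M → P ∈ W) := by
      intro P
      by_cases h1 : P ⊆ I
      · exact Or.inl h1
      · by_cases h2 : P ⊆ J
        · exact Or.inr (Or.inl h2)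
        · exact Or.inr (Or.inr fun h => by rw [hWd, mem_filter]; exact ⟨h, h1, h2⟩)
    rw [hTg, mem_union, mem_union]
    rcases hcl a with haI | haJ | haW
    · have ea : a ∩ J = ∅ := inter_empty hIJ.symm haI
      rcases hcl b with hbI | hbJ | hbW
      · have eb : b ∩ J = ∅ := inter_empty hIJ.symm hbI
        rw [ea, eb, union_empty] at hTe
        left; left
        exact mem_image.2 ⟨S, hS, by rw [hTe]⟩
      · exfalso
        have eb : b ∩ I = ∅ := inter_empty hIJ hbJ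
        rw [eb, union_empty, inter_eq_left.2 haI] at hSe
        exact hSM (hSe ▸ hA ha)
      · left; right
        rw [ea, empty_union] at hTe
        exact mem_image.2 ⟨(S, b), mem_product.2 ⟨hS, hbW (hB hb)⟩, by rw [hTe]⟩
    · have ea : a ∩ I = ∅ := inter_empty hIJ haJ
      rw [ea, empty_union] at hSe
      rcases hcl b with hbI | hbJ | hbW
      · exfalso
        rw [inter_eq_left.2 hbI] at hSe
        exact hSM (hSe ▸ hB hb)
      · exfalso
        rw [inter_empty hIJ hbJ] at hSe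
        exact hSne hSe.symm
      · exfalso
        exact hT2 b (hbW (hB hb)) hSe (by rw [← hTe]; exact subset_union_right)
    · have haW := haW (hA ha)
      rcases hcl b with hbI | hbJ | hbW
      · left; right
        rw [inter_empty hIJ.symm hbI, union_empty] at hTe
        exact mem_image.2 ⟨(S, a), mem_product.2 ⟨hS, haW⟩, by rw [hTe]⟩
      · exfalso
        rw [inter_empty hIJ hbJ, union_empty] at hSe
        exact hT2 a haW hSe (by rw [← hTe]; exact subset_union_left)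
      · right
        rw [hT3, mem_image]
        refine ⟨(a, b), mem_product.2 ⟨mem_inter.2 ⟨ha, haW⟩, mem_inter.2 ⟨hb, hbW (hB hb)⟩⟩, ?_⟩
        show ((a ∪ b) ∩ I, (a ∪ b) ∩ J) = (S, T)
        rw [union_inter_distrib_right, union_inter_distrib_right, hSe, hTe]
  have hsum : ∑ S ∈ K, #(Unc W I J S) ≤ #Tg := by
    rw [← card_sigma]
    refine card_le_card_of_injOn (fun p => (p.1, p.2)) ?_ ?_
    · intro p hp
      rw [mem_coe, mem_sigma] at hp
      exact mem_coe.2 (hcell p.1 hp.1 p.2 hp.2)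
    · rintro ⟨p1, p2⟩ _ ⟨q1, q2⟩ _ h
      simp only [Prod.mk.injEq] at h
      obtain ⟨rfl, rfl⟩ := h
      rfl
  have hTgc : #Tg ≤ k + k * w + #(A ∩ W) * #(B ∩ W) := by
    rw [hTg, hT3, hk, hw]
    refine (card_union_le _ _).trans (Nat.add_le_add ((card_union_le _ _).trans
      (Nat.add_le_add card_image_le (card_image_le.trans (card_product _ _).le)))
      (card_image_le.trans (card_product _ _).le))
  have hAW : #(A ∩ W) + #(B ∩ W) ≤ w := by
    rw [hw, ← card_union_of_disjoint]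
    · exact card_le_card (union_subset inter_subset_right inter_subset_right)
    · exact disjoint_of_subset_left inter_subset_left
        (disjoint_of_subset_right inter_subset_left hAB)
  have hr : ∑ S ∈ K, #(W.filter fun P => P ∩ I = S) ≤ w := by
    rw [sum_card_fiberwise_eq_card_filter, hw]
    exact card_le_card (filter_subset _ _)
  have hlin : ∑ S ∈ K, (2 : ℤ) ^ #J * (3 - #(W.filter fun P => P ∩ I = S)) ≤
      ∑ S ∈ K, 4 * (#(Unc W I J S) : ℤ) := sum_le_sum fun S _ => unc_lin hcov hWI S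
  rw [← mul_sum, ← mul_sum, sum_sub_distrib, sum_const, nsmul_eq_mul, ← hk] at hlin
  have h1 : (∑ S ∈ K, (#(Unc W I J S) : ℤ)) ≤ k + k * w + #(A ∩ W) * #(B ∩ W) := by
    exact_mod_cast hsum.trans hTgc
  have h2 : (∑ S ∈ K, (#(W.filter fun P => P ∩ I = S) : ℤ)) ≤ w := by exact_mod_cast hr
  have h3 : (#(A ∩ W) : ℤ) + #(B ∩ W) ≤ w := by exact_mod_cast hAW
  have h4 : 4 * ((#(A ∩ W) : ℤ) * #(B ∩ W)) ≤ (w : ℤ) ^ 2 := by
    have h5 : (0 : ℤ) ≤ #(A ∩ W) := by positivity
    have h6 : (0 : ℤ) ≤ #(B ∩ W) := by positivity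
    nlinarith [sq_nonneg ((#(A ∩ W) : ℤ) - #(B ∩ W))]
  have hp : (0 : ℤ) < 2 ^ #J := by positivity
  have h7 : (2 : ℤ) ^ #J * (3 * k - w) ≤
      2 ^ #J * (k * 3 - ∑ S ∈ K, (#(W.filter fun P => P ∩ I = S) : ℤ)) := by
    apply mul_le_mul_of_nonneg_left _ hp.le
    linarith
  linarith

end Pool.Agent.R101.CS
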