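import Pool.Agent.R101.CrossSperner2

/-!
# Cross-Sperner families: the numerical part and the main theorem
-/

set_option autoImplicit false

namespace Pool.Agent.R101.CS

open Finset

/-! ## Numerical lemmas -/

lemma num1 {N x y z μ : ℝ} (hzx : z ≤ x) (hzy : z ≤ y)
    (hm : x + y - z + μ ≤ 3 * N - 2) (hpq : 2 * N ^ 2 - (x + y - z + μ) ≤ (x - z) * (y - z)) :
    z + μ ≤ 0.18 * N := by
  by_contra h
  push Not at h
  obtain ⟨p, hp⟩ : ∃ p, p = x - z := ⟨_, rfl⟩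
  obtain ⟨q, hq⟩ : ∃ q, q = y - z := ⟨_, rfl⟩
  rw [← hp, ← hq] at hpq
  have h0 : 0 ≤ p + q := by linarith
  have h1 : p + q ≤ 2.82 * N - 2 := by linarith
  have h3 : (p + q) ^ 2 ≤ (2.82 * N - 2) ^ 2 := by gcongr
  have h4 : 4 * (p * q) ≤ (p + q) ^ 2 := by nlinarith [sq_nonneg (p - q)]
  nlinarith [sq_nonneg (N - 7.5)]

lemma num2 {N x y z μ : ℝ} (hz : 1 ≤ z) (hμ : 0 ≤ μ) (hzx : z ≤ x) (hzy : z ≤ y)
    (hm : x + y - z + μ ≤ 3 * N - 2) (hzm : z + μ ≤ 0.18 * N) :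
    5 ≤ N ∧ x * y < 3 * (N ^ 2 - μ) ∧ x * y - 2 * (N ^ 2 - μ) ≤ 0.5281 * N ^ 2 - 3.18 * N + 1 ∧
    0 < N ^ 2 - μ := by
  have hN : 5 ≤ N := by nlinarith
  have h0 : 0 ≤ x + y := by linarith
  have h1 : x + y ≤ 3.18 * N - 2 - 2 * μ := by linarith
  have h3 : (x + y) ^ 2 ≤ (3.18 * N - 2 - 2 * μ) ^ 2 := by gcongr
  have h4 : 4 * (x * y) ≤ (x + y) ^ 2 := by nlinarith [sq_nonneg (x - y)]
  have h5 : μ * (μ - 3.18 * N + 4) ≤ 0 := by
    apply mul_nonpos_of_nonneg_of_nonpos hμ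
    linarith
  have h6 : x * y - 2 * (N ^ 2 - μ) ≤ 0.5281 * N ^ 2 - 3.18 * N + 1 := by nlinarith
  have h7 : μ ≤ 0.18 * N := by linarith
  refine ⟨hN, ?_, h6, ?_⟩
  · nlinarith
  · nlinarith

lemma num3 {N x y xa xb ya yb D E L μ Dl : ℝ} (hN : 5 ≤ N) (hμ : 0 ≤ μ) (hμN : μ ≤ 0.18 * N)
    (hL : L = N ^ 2 - μ) (hDl : Dl = x * y - 2 * L) (hDl2 : Dl ≤ 0.5281 * N ^ 2 - 3.18 * N + 1)
    (hx : 0 < x) (hy : 0 < y) (hxa : xa + xb = x) (hya : ya + yb = y) (hxb : 0 ≤ xb)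
    (hyb : 0 ≤ yb) (hD0 : 0 ≤ D) (hE0 : 0 ≤ E) (hD : D * y ≤ Dl) (hE : E * x ≤ Dl)
    (g1 : 2 * N ^ 2 - μ ≤ xa * ya + yb * D + xb * E) (g2 : 2 * N ^ 2 - μ ≤ x * ya + yb * D)
    (g3 : 2 * N ^ 2 - μ ≤ xa * y + xb * E) : 1.72 * N ^ 2 ≤ xa * ya := by
  have hLp : 0 < L := by rw [hL]; nlinarith
  have e1 : 2 * L * yb ≤ y * (Dl - μ) := by
    have h1 := mul_le_mul_of_nonneg_left g2 hy.le
    have h2 := mul_le_mul_of_nonneg_left hD hyb
    have h3 : ya = y - yb := by linarith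
    rw [h3] at h1
    rw [hDl] at h2 ⊢
    rw [hL] at *
    nlinarith
  have e2 : 2 * L * xb ≤ x * (Dl - μ) := by
    have h1 := mul_le_mul_of_nonneg_left g3 hx.le
    have h2 := mul_le_mul_of_nonneg_left hE hxb
    have h3 : xa = x - xb := by linarith
    rw [h3] at h1
    rw [hDl] at h2 ⊢
    rw [hL] at *
    nlinarith
  have hDm : 0 ≤ Dl - μ := by
    have : 0 ≤ y * (Dl - μ) := le_trans (by positivity) e1
    exact nonneg_of_mul_nonneg_right this hy
  have f1 : 2 * L * (yb * D) ≤ (Dl - μ) * Dl := by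
    calc 2 * L * (yb * D) = (2 * L * yb) * D := by ring
      _ ≤ (y * (Dl - μ)) * D := mul_le_mul_of_nonneg_right e1 hD0
      _ = (Dl - μ) * (D * y) := by ring
      _ ≤ (Dl - μ) * Dl := mul_le_mul_of_nonneg_left hD hDm
  have f2 : 2 * L * (xb * E) ≤ (Dl - μ) * Dl := by
    calc 2 * L * (xb * E) = (2 * L * xb) * E := by ring
      _ ≤ (x * (Dl - μ)) * E := mul_le_mul_of_nonneg_right e2 hE0
      _ = (Dl - μ) * (E * x) := by ring
      _ ≤ (Dl - μ) * Dl := mul_le_mul_of_nonneg_left hE hDm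
  have f3 : (Dl - μ) * Dl ≤ L * (0.28 * N ^ 2 - μ) := by
    have hT : 0 ≤ Dl := by linarith
    have h1 : (Dl - μ) * Dl ≤ (0.5281 * N ^ 2 - 3.18 * N + 1) ^ 2 := by
      rw [sq]
      exact mul_le_mul (by linarith) hDl2 hT (by linarith)
    have h2 : (N ^ 2 - 0.18 * N) * (0.28 * N ^ 2 - 0.18 * N) ≤ L * (0.28 * N ^ 2 - μ) := by
      apply mul_le_mul
      · rw [hL]; linarith
      · linarith
      · nlinarith
      · exact hLp.le
    refine h1.trans (le_trans ?_ h2)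
    have h3 : 0 ≤ N - 5 := by linarith
    have h4 : (N ^ 2 - 0.18 * N) * (0.28 * N ^ 2 - 0.18 * N) -
        (0.5281 * N ^ 2 - 3.18 * N + 1) ^ 2 = 0.00111039 * N ^ 4 + 3.128316 * N ^ 3 -
        11.1362 * N ^ 2 + 6.36 * N - 1 := by ring
    have h5 : 0 ≤ 0.00111039 * N ^ 4 := by positivity
    have h6 : 0 ≤ 3.128316 * N ^ 3 - 11.1362 * N ^ 2 := by
      have : 3.128316 * N ^ 3 - 11.1362 * N ^ 2 = N ^ 2 * (3.128316 * N - 11.1362) := by ring
      rw [this]
      exact mul_nonneg (by positivity) (by linarith)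
    linarith
  have f4 : yb * D + xb * E ≤ 0.28 * N ^ 2 - μ := by
    have : L * (yb * D + xb * E) ≤ L * (0.28 * N ^ 2 - μ) := by linarith
    exact le_of_mul_le_mul_left this hLp
  linarith

lemma num5 {N k l w : ℝ} (hN : 0 < N) (hk : 0 ≤ k) (hl : 0 ≤ l) (hw : 0 ≤ w)
    (hkN : k ≤ 2 * N) (hlN : l ≤ N) (hkl : l ≤ k ∨ k + 1 ≤ l) (hs : w ≤ k + l - 1)
    (hR : N * (3 * k - w) ≤ 4 * k + 4 * k * w + w ^ 2)
    (hC : 2 * N * (3 * l - w) ≤ 4 * l + 4 * l * w + w ^ 2)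
    (hP : 1.72 * N ^ 2 ≤ (2 * N - k) * (N - l)) : False := by
  rcases hkl with h | h
  · have h1 : 21 * k + 39 * l < 6 * N := by
      by_contra hh
      push Not at hh
      obtain ⟨X, hX⟩ : ∃ X, X = 2 * N - k := ⟨_, rfl⟩
      obtain ⟨Y, hY⟩ : ∃ Y, Y = N - l := ⟨_, rfl⟩
      rw [← hX, ← hY] at hP
      have h2 : 0 ≤ 21 * X + 39 * Y := by rw [hX, hY]; linarith
      have h3 : 21 * X + 39 * Y ≤ 75 * N := by rw [hX, hY]; linarith
      have h4 : (21 * X + 39 * Y) ^ 2 ≤ (75 * N) ^ 2 := by gcongr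
      have h5 : 4 * 819 * (X * Y) ≤ (21 * X + 39 * Y) ^ 2 := by
        nlinarith [sq_nonneg (21 * X - 39 * Y)]
      have h6 : 0 < N ^ 2 := by positivity
      nlinarith
    -- combine
    obtain ⟨s, hsd⟩ : ∃ s, s = k + l := ⟨_, rfl⟩
    have hs1 : 1 ≤ s := by linarith
    have hsw : w ≤ s - 1 := by linarith
    have a1 : N * (12 * k + 6 * l - 6 * w) ≤ 16 * k + 4 * l + 4 * w * (4 * k + l) + 5 * w ^ 2 := by
      nlinarith
    have a2 : N * (12 * k + 6 * l - 6 * (s - 1)) ≤ N * (12 * k + 6 * l - 6 * w) :=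
      mul_le_mul_of_nonneg_left (by linarith) hN.le
    have a3 : 4 * w * (4 * k + l) ≤ 4 * (s - 1) * (4 * k + l) :=
      mul_le_mul_of_nonneg_right (by linarith) (by linarith)
    have a4 : w ^ 2 ≤ (s - 1) ^ 2 := by gcongr
    have a5 : N * (12 * k + 6 * l - 6 * (s - 1)) = 6 * N * (k + 1) := by rw [hsd]; ring
    have a6 : 9 * l ^ 2 ≤ 9 * (k * l) := by nlinarith
    have a7 : k * (21 * k + 39 * l) ≤ k * (6 * N) := mul_le_mul_of_nonneg_left h1.le hk
    rw [hsd] at a3 a4 a5 hs1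
    nlinarith
  · have h1 : l ≤ 0.14 * N := by
      have h2 : (2 * N - k) * (N - l) ≤ 2 * N * (N - l) :=
        mul_le_mul_of_nonneg_right (by linarith) (by linarith)
      have h3 : N * (0.86 * N) ≤ N * (N - l) := by nlinarith
      have := le_of_mul_le_mul_left h3 hN
      linarith
    have hw2 : w ≤ 2 * l - 2 := by linarith
    have a1 : 2 * N * (l + 2) ≤ 2 * N * (3 * l - w) :=
      mul_le_mul_of_nonneg_left (by linarith) (by linarith)
    have a2 : 4 * l * w ≤ 4 * l * (2 * l - 2) := mul_le_mul_of_nonneg_left hw2 (by linarith)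
    have a3 : w ^ 2 ≤ (2 * l - 2) ^ 2 := by gcongr
    have a4 : l * l ≤ l * (0.14 * N) := mul_le_mul_of_nonneg_left h1 hl
    nlinarith

/-! ## The main theorem -/

variable {V : Type*} [Fintype V] [DecidableEq V]

/-- the down-set generated by a family -/
def dn (A : Finset (Finset V)) : Finset (Finset V) := univ.filter fun S => ∃ a ∈ A, S ⊆ a

lemma mem_dn {A : Finset (Finset V)} {S : Finset V} : S ∈ dn A ↔ ∃ a ∈ A, S ⊆ a := by
  unfold dn; simp

lemma low_dn (A : Finset (Finset V)) : Low (dn A) := by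
  intro S hS T hT
  rw [mem_dn] at hS ⊢
  obtain ⟨a, ha, h⟩ := hS
  exact ⟨a, ha, hT.trans h⟩

lemma sub_dn (A : Finset (Finset V)) : A ⊆ dn A := fun a ha => mem_dn.2 ⟨a, ha, Subset.rfl⟩

/-- the number of sets containing a point -/
lemma card_all (d : ℕ) (hV : Fintype.card V = 2 * d + 1) (i : V) :
    #((univ : Finset (Finset V)).filter fun P => i ∈ P) = (2 ^ d) ^ 2 := by
  have h := db_add (X := (univ : Finset (Finset V))) (fun S _ T _ => mem_univ T) i
  have h2 : db (univ : Finset (Finset V)) i = 0 := by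
    unfold db; simp
  have h3 : #(univ : Finset (Finset V)) = 2 * (2 ^ d) ^ 2 := by
    rw [card_univ, Fintype.card_finset, hV]; ring
  unfold d1 at h
  rw [h2, h3] at h
  omega

set_option maxHeartbeats 2000000 in
theorem main (d : ℕ) (hV : Fintype.card V = 2 * d + 1) (A B : Finset (Finset V))
    (hAB : ∀ a ∈ A, ∀ b ∈ B, ¬ a ⊆ b ∧ ¬ b ⊆ a) :
    #(un A B) + 3 * 2 ^ d ≤ 2 * (2 ^ d) ^ 2 + 1 := by
  classical
  by_contra hcon
  push Not at hcon
  obtain ⟨N, hN⟩ : ∃ N : ℕ, N = 2 ^ d := ⟨_, rfl⟩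
  rw [← hN] at hcon
  have hN1 : 1 ≤ N := by rw [hN]; exact Nat.one_le_two_pow
  -- the missing sets
  obtain ⟨M, hM⟩ : ∃ M : Finset (Finset V), M = univ \ un A B := ⟨_, rfl⟩
  have hMmem : ∀ C, C ∈ M ↔ C ∉ un A B := by intro C; rw [hM]; simp
  have hall : #(univ : Finset (Finset V)) = 2 * N ^ 2 := by
    rw [card_univ, Fintype.card_finset, hV, hN]; ring
  have hMc : #M + #(un A B) = 2 * N ^ 2 := by
    rw [hM, ← hall]
    exact card_sdiff_add_card_eq_card (subset_univ _)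
  have hM3 : #M + 2 ≤ 3 * N := by omega
  have hUpos : 0 < #(un A B) := by
    by_contra h0
    have h0 : #(un A B) = 0 := by omega
    rw [h0] at hcon
    have h1 : 3 * N ≤ 2 * N ^ 2 + 1 := by nlinarith
    omega
  obtain ⟨C0, hC0⟩ := card_pos.1 hUpos
  rw [mem_un] at hC0
  obtain ⟨a0, ha0, b0, hb0, _⟩ := hC0
  obtain ⟨X, hX⟩ : ∃ X, X = dn A := ⟨_, rfl⟩
  obtain ⟨Y, hY⟩ : ∃ Y, Y = dn B := ⟨_, rfl⟩
  have hXl : Low X := hX ▸ low_dn A
  have hYl : Low Y := hY ▸ low_dn B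
  have hAX : A ⊆ X := hX ▸ sub_dn A
  have hBY : B ⊆ Y := hY ▸ sub_dn B
  have hXM : X ⊆ M := by
    intro S hS
    rw [hX, mem_dn] at hS
    obtain ⟨a, ha, hSa⟩ := hS
    rw [hMmem, mem_un]
    rintro ⟨a', _, b', hb', rfl⟩
    exact (hAB a ha b' hb').2 (subset_union_right.trans hSa)
  have hYM : Y ⊆ M := by
    intro S hS
    rw [hY, mem_dn] at hS
    obtain ⟨b, hb, hSb⟩ := hS
    rw [hMmem, mem_un]
    rintro ⟨a', ha', b', _, rfl⟩
    exact (hAB a' ha' b hb).1 (subset_union_left.trans hSb)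
  have h0X : ∅ ∈ X := by rw [hX, mem_dn]; exact ⟨a0, ha0, empty_subset _⟩
  have h0Y : ∅ ∈ Y := by rw [hY, mem_dn]; exact ⟨b0, hb0, empty_subset _⟩
  have hAY : ∀ a ∈ A, a ∉ Y := by
    intro a ha h
    rw [hY, mem_dn] at h
    obtain ⟨b, hb, h⟩ := h
    exact (hAB a ha b hb).1 h
  have hBX : ∀ b ∈ B, b ∉ X := by
    intro b hb h
    rw [hX, mem_dn] at h
    obtain ⟨a, ha, h⟩ := h
    exact (hAB a ha b hb).2 h
  -- cardinalities
  obtain ⟨z, hz⟩ : ∃ z, z = #(X ∩ Y) := ⟨_, rfl⟩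
  obtain ⟨μ, hμ⟩ : ∃ μ, μ = #(M \ (X ∪ Y)) := ⟨_, rfl⟩
  have hz1 : 1 ≤ z := by rw [hz]; exact card_pos.2 ⟨∅, mem_inter.2 ⟨h0X, h0Y⟩⟩
  have hzX : z ≤ #X := hz ▸ card_le_card inter_subset_left
  have hzY : z ≤ #Y := hz ▸ card_le_card inter_subset_right
  have hMeq : #M + z = #X + #Y + μ := by
    have h1 := card_union_add_card_inter X Y
    have h2 : #(M \ (X ∪ Y)) + #(X ∪ Y) = #M :=
      card_sdiff_add_card_eq_card (union_subset hXM hYM)
    omega
  have hAc : #A + z ≤ #X := by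
    rw [hz, ← card_union_of_disjoint]
    · exact card_le_card (union_subset hAX inter_subset_left)
    · rw [disjoint_left]
      intro a ha h
      exact hAY a ha (mem_inter.1 h).2
  have hBc : #B + z ≤ #Y := by
    rw [hz, ← card_union_of_disjoint]
    · exact card_le_card (union_subset hBY inter_subset_right)
    · rw [disjoint_left]
      intro a ha h
      exact hBX a ha (mem_inter.1 h).1
  have hUc : #(un A B) ≤ #A * #B := by
    unfold un
    exact card_image_le.trans (card_product _ _).le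
  -- the unions of the down-sets
  have hnot : ∀ C, C ∉ un X Y → C ∈ M \ (X ∪ Y) := by
    intro C hC
    rw [mem_sdiff, mem_union]
    refine ⟨?_, ?_⟩
    · rw [hMmem]
      intro h
      rw [mem_un] at h
      obtain ⟨a, ha, b, hb, h⟩ := h
      exact hC (mem_un.2 ⟨a, hAX ha, b, hBY hb, h⟩)
    · rintro (h | h)
      · exact hC (mem_un.2 ⟨C, h, ∅, h0Y, union_empty _⟩)
      · exact hC (mem_un.2 ⟨∅, h0X, C, h, empty_union _⟩)
  have hun : 2 * N ^ 2 ≤ #(un X Y) + μ := by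
    rw [← hall, hμ]
    refine le_trans (card_le_card ?_) (card_union_le _ _)
    intro C _
    by_cases h : C ∈ un X Y
    · exact mem_union_left _ h
    · exact mem_union_right _ (hnot C h)
  have huni : ∀ i, N ^ 2 ≤ #((un X Y).filter fun C => i ∈ C) + μ := by
    intro i
    have h1 := card_all d hV i
    rw [← hN] at h1
    rw [← h1, hμ]
    refine le_trans (card_le_card ?_) (card_union_le _ _)
    intro C hC
    rw [mem_filter] at hC
    by_cases h : C ∈ un X Y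
    · exact mem_union_left _ (mem_filter.2 ⟨h, hC.2⟩)
    · exact mem_union_right _ (hnot C h)
  -- real numbers
  have r1 : (1 : ℝ) ≤ (N : ℝ) := by exact_mod_cast hN1
  have rz : (1 : ℝ) ≤ (z : ℝ) := by exact_mod_cast hz1
  have rμ : (0 : ℝ) ≤ (μ : ℝ) := by positivity
  have rzX : (z : ℝ) ≤ (#X : ℝ) := by exact_mod_cast hzX
  have rzY : (z : ℝ) ≤ (#Y : ℝ) := by exact_mod_cast hzY
  have rMeq : (#M : ℝ) = #X + #Y - z + μ := by
    have : (#M : ℝ) + z = #X + #Y + μ := by exact_mod_cast hMeq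
    linarith
  have rM3 : (#M : ℝ) ≤ 3 * N - 2 := by
    have : (#M : ℝ) + 2 ≤ 3 * N := by exact_mod_cast hM3
    linarith
  have rpq : 2 * (N : ℝ) ^ 2 - (#X + #Y - z + μ) ≤ (#X - z) * (#Y - z) := by
    have h1 : (#M : ℝ) + #(un A B) = 2 * N ^ 2 := by exact_mod_cast hMc
    have h2 : (#(un A B) : ℝ) ≤ #A * #B := by exact_mod_cast hUc
    have h3 : (#A : ℝ) + z ≤ #X := by exact_mod_cast hAc
    have h4 : (#B : ℝ) + z ≤ #Y := by exact_mod_cast hBc
    have h5 : (#A : ℝ) * #B ≤ (#X - z) * (#Y - z) :=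
      mul_le_mul (by linarith) (by linarith) (by positivity) (by linarith)
    rw [← rMeq]
    linarith
  rw [rMeq] at rM3
  have hzm := num1 rzX rzY rM3 rpq
  obtain ⟨hN5, hxy3, hDl2, hLp⟩ := num2 rz rμ rzX rzY rM3 hzm
  have hx0 : (0 : ℝ) < #X := by linarith
  have hy0 : (0 : ℝ) < #Y := by linarith
  -- coordinates
  have hco : ∀ i, (N : ℝ) ^ 2 - μ ≤ d1 X i * (#Y - d1 Y i) + (#X - 2 * d1 X i) * d1 Y i := by
    intro i
    have h1 := (huni i).trans (Nat.add_le_add_right (coord hYl i) μ)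
    have h2 : (N : ℝ) ^ 2 ≤ d1 X i * d0 Y i + db X i * d1 Y i + μ := by exact_mod_cast h1
    have h3 : (d1 Y i : ℝ) + d0 Y i = #Y := by exact_mod_cast d1_add_d0 Y i
    have h4 : (db X i : ℝ) + 2 * d1 X i = #X := by exact_mod_cast db_add hXl i
    have h5 : (d0 Y i : ℝ) = #Y - d1 Y i := by linarith
    have h6 : (db X i : ℝ) = #X - 2 * d1 X i := by linarith
    rw [h5, h6] at h2
    linarith
  obtain ⟨I, hI⟩ : ∃ I : Finset V, I = univ.filter fun i => #X < 3 * d1 X i := ⟨_, rfl⟩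
  obtain ⟨J, hJ⟩ : ∃ J : Finset V, J = univ.filter fun i => ¬ #X < 3 * d1 X i := ⟨_, rfl⟩
  have hcov : ∀ j, j ∈ I ∨ j ∈ J := by
    intro j
    rw [hI, hJ, mem_filter, mem_filter]
    by_cases h : #X < 3 * d1 X j
    · exact Or.inl ⟨mem_univ _, h⟩
    · exact Or.inr ⟨mem_univ _, h⟩
  have hIJ : Disjoint I J := by
    rw [disjoint_left]
    intro j h1 h2
    rw [hI, mem_filter] at h1
    rw [hJ, mem_filter] at h2
    exact h2.2 h1.2
  have hcardIJ : #I + #J = 2 * d + 1 := by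
    rw [hI, hJ, card_filter_add_card_filter_not, card_univ, hV]
  have hIx : ∀ i, i ∈ I → (N : ℝ) ^ 2 - μ ≤ d1 X i * #Y := by
    intro i hi
    rw [hI, mem_filter] at hi
    have h1 : (#X : ℝ) < 3 * d1 X i := by exact_mod_cast hi.2
    have h2 := hco i
    have h3 : (0 : ℝ) ≤ d1 Y i := by positivity
    nlinarith
  have hJy : ∀ i, i ∈ J → (N : ℝ) ^ 2 - μ ≤ d1 Y i * #X := by
    intro i hi
    rw [hJ, mem_filter] at hi
    have h1 : (3 * d1 X i : ℝ) ≤ #X := by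
      have := hi.2
      push Not at this
      exact_mod_cast this
    have h2 := hco i
    have h3 : (0 : ℝ) ≤ d1 X i := by positivity
    have h4 : (#Y : ℝ) < 3 * d1 Y i := by
      by_contra h5
      push Not at h5
      have h6 : 0 ≤ (#X - 3 * d1 X i : ℝ) * (#Y - 3 * d1 Y i) :=
        mul_nonneg (by linarith) (by linarith)
      nlinarith
    nlinarith
  obtain ⟨L, hL⟩ : ∃ L : ℝ, L = (N : ℝ) ^ 2 - μ := ⟨_, rfl⟩
  obtain ⟨Dl, hDl⟩ : ∃ Dl : ℝ, Dl = #X * #Y - 2 * L := ⟨_, rfl⟩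
  have hDI : ∀ i, i ∉ J → (db X i : ℝ) ≤ Dl / #Y := by
    intro i hi
    have hiI := (hcov i).resolve_right hi
    have h1 := hIx i hiI
    have h4 : (db X i : ℝ) + 2 * d1 X i = #X := by exact_mod_cast db_add hXl i
    rw [le_div_iff₀ hy0, hDl, hL]
    nlinarith
  have hEJ : ∀ i, i ∉ I → (db Y i : ℝ) ≤ Dl / #X := by
    intro i hi
    have hiJ := (hcov i).resolve_left hi
    have h1 := hJy i hiJ
    have h4 : (db Y i : ℝ) + 2 * d1 Y i = #Y := by exact_mod_cast db_add hYl i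
    rw [le_div_iff₀ hx0, hDl, hL]
    nlinarith
  have hDl0 : 0 ≤ Dl := by
    -- the number of unions is at most the number of pairs
    have h1 : #(un X Y) ≤ #X * #Y := by
      unfold un
      exact card_image_le.trans (card_product _ _).le
    have h2 : (#(un X Y) : ℝ) ≤ #X * #Y := by exact_mod_cast h1
    have h3 : 2 * (N : ℝ) ^ 2 ≤ #(un X Y) + μ := by exact_mod_cast hun
    rw [hDl, hL]
    linarith
  obtain ⟨D, hD⟩ : ∃ D : ℕ, D = ⌊Dl / #Y⌋₊ := ⟨_, rfl⟩
  obtain ⟨E, hE⟩ : ∃ E : ℕ, E = ⌊Dl / #X⌋₊ := ⟨_, rfl⟩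
  have hD1 : (D : ℝ) * #Y ≤ Dl := by
    rw [← le_div_iff₀ hy0, hD]
    exact Nat.floor_le (div_nonneg hDl0 hy0.le)
  have hE1 : (E : ℝ) * #X ≤ Dl := by
    rw [← le_div_iff₀ hx0, hE]
    exact Nat.floor_le (div_nonneg hDl0 hx0.le)
  obtain ⟨g1, g2, g3⟩ := good_count hXl hYl hIJ hcov (D := D) (E := E)
    (fun i hi => hD ▸ Nat.le_floor (hDI i hi)) (fun i hi => hE ▸ Nat.le_floor (hEJ i hi))
  obtain ⟨xa, hxa⟩ : ∃ xa, xa = #(X.filter fun P => P ⊆ I) := ⟨_, rfl⟩
  obtain ⟨xb, hxb⟩ : ∃ xb, xb = #(X.filter fun P => ¬ P ⊆ I) := ⟨_, rfl⟩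
  obtain ⟨ya, hya⟩ : ∃ ya, ya = #(Y.filter fun P => P ⊆ J) := ⟨_, rfl⟩
  obtain ⟨yb, hyb⟩ : ∃ yb, yb = #(Y.filter fun P => ¬ P ⊆ J) := ⟨_, rfl⟩
  rw [← hxa, ← hya, ← hyb, ← hxb] at g1
  rw [← hya, ← hyb] at g2
  rw [← hxa, ← hxb] at g3
  have hxab : xa + xb = #X := by
    rw [hxa, hxb]; exact card_filter_add_card_filter_not (fun P : Finset V => P ⊆ I)
  have hyab : ya + yb = #Y := by
    rw [hya, hyb]; exact card_filter_add_card_filter_not (fun P : Finset V => P ⊆ J)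
  have run : 2 * (N : ℝ) ^ 2 ≤ #(un X Y) + μ := by exact_mod_cast hun
  have rg1 : (#(un X Y) : ℝ) ≤ xa * ya + yb * D + xb * E := by exact_mod_cast g1
  have rg2 : (#(un X Y) : ℝ) ≤ #X * ya + yb * D := by exact_mod_cast g2
  have rg3 : (#(un X Y) : ℝ) ≤ xa * #Y + xb * E := by exact_mod_cast g3
  have key : 1.72 * (N : ℝ) ^ 2 ≤ xa * ya :=
    num3 (x := #X) (y := #Y) (xa := xa) (xb := xb) (ya := ya) (yb := yb) (D := D) (E := E)
      (L := L) (μ := μ) (Dl := Dl) hN5 rμ (by linarith) hL hDl (by rw [hDl, hL]; exact hDl2)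
      hx0 hy0 (by exact_mod_cast hxab) (by exact_mod_cast hyab) (by positivity) (by positivity)
      (by positivity) (by positivity) hD1 hE1 (by linarith) (by linarith) (by linarith)
  -- sizes
  have hxaI : xa ≤ 2 ^ #I := by
    rw [hxa, ← card_powerset]
    refine card_le_card fun P hP => ?_
    rw [mem_filter] at hP
    exact mem_powerset.2 hP.2
  have hyaJ : ya ≤ 2 ^ #J := by
    rw [hya, ← card_powerset]
    refine card_le_card fun P hP => ?_
    rw [mem_filter] at hP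
    exact mem_powerset.2 hP.2
  have hxM : xa + 2 ≤ 3 * N := by
    have : #X ≤ #M := card_le_card hXM
    omega
  have hyM : ya + 2 ≤ 3 * N := by
    have : #Y ≤ #M := card_le_card hYM
    omega
  have hsmall : ∀ b : ℕ, b + 1 ≤ d → 2 * 2 ^ b ≤ N := by
    intro b hb
    rw [hN, ← pow_succ']
    exact Nat.pow_le_pow_right (by norm_num) hb
  have hab : (#I = d + 1 ∧ #J = d) ∨ (#I = d ∧ #J = d + 1) := by
    by_contra hh
    have h1 : #J + 1 ≤ d ∨ #I + 1 ≤ d := by omega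
    rcases h1 with h1 | h1
    · have h2 := hsmall _ h1
      have h3 : 2 * ya ≤ N := by omega
      have h4 : (2 * ya : ℝ) ≤ N := by exact_mod_cast h3
      have h5 : (xa : ℝ) + 2 ≤ 3 * N := by exact_mod_cast hxM
      have h6 : (xa : ℝ) * (2 * ya) ≤ 3 * N * N :=
        mul_le_mul (by linarith) h4 (by positivity) (by positivity)
      have h7 : (xa : ℝ) * (2 * ya) = 2 * (xa * ya) := by ring
      have h8 : (3 * N * N : ℝ) = 3 * (N : ℝ) ^ 2 := by ring
      have h9 : (0 : ℝ) < (N : ℝ) ^ 2 := by positivity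
      rw [h7, h8] at h6
      linarith
    · have h2 := hsmall _ h1
      have h3 : 2 * xa ≤ N := by omega
      have h4 : (2 * xa : ℝ) ≤ N := by exact_mod_cast h3
      have h5 : (ya : ℝ) + 2 ≤ 3 * N := by exact_mod_cast hyM
      have h6 : (2 * xa : ℝ) * ya ≤ N * (3 * N) :=
        mul_le_mul h4 (by linarith) (by positivity) (by positivity)
      have h7 : (2 * xa : ℝ) * ya = 2 * (xa * ya) := by ring
      have h8 : (N * (3 * N) : ℝ) = 3 * (N : ℝ) ^ 2 := by ring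
      have h9 : (0 : ℝ) < (N : ℝ) ^ 2 := by positivity
      rw [h7, h8] at h6
      linarith
  -- rows and columns
  obtain ⟨k, hk⟩ : ∃ k, k = #(I.powerset.filter fun S => S ∉ M) := ⟨_, rfl⟩
  obtain ⟨l, hl⟩ : ∃ l, l = #(J.powerset.filter fun S => S ∉ M) := ⟨_, rfl⟩
  obtain ⟨w, hw⟩ : ∃ w, w = #(M.filter fun P => ¬ P ⊆ I ∧ ¬ P ⊆ J) := ⟨_, rfl⟩
  have hw' : w = #(M.filter fun P => ¬ P ⊆ J ∧ ¬ P ⊆ I) := by
    rw [hw]; congr 1; ext P; simp only [mem_filter]; tauto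
  have hABd : Disjoint A B := by
    rw [disjoint_left]
    intro a ha hb
    exact (hAB a ha a hb).1 Subset.rfl
  have hU : ∀ C, C ∉ M → ∃ a ∈ A, ∃ b ∈ B, a ∪ b = C := by
    intro C hC
    rw [hMmem, not_not, mem_un] at hC
    exact hC
  have hR := rows hIJ hcov (hXM h0X) (hAX.trans hXM) (hBY.trans hYM) hABd hU hk hw
  have hC := rows hIJ.symm (fun j => (hcov j).symm) (hXM h0X) (hAX.trans hXM) (hBY.trans hYM)
    hABd hU hl hw'
  have hkI : #(I.powerset.filter fun S => S ∈ M) + k = 2 ^ #I := by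
    rw [hk, ← card_powerset]
    exact card_filter_add_card_filter_not (fun S : Finset V => S ∈ M)
  have hlJ : #(J.powerset.filter fun S => S ∈ M) + l = 2 ^ #J := by
    rw [hl, ← card_powerset]
    exact card_filter_add_card_filter_not (fun S : Finset V => S ∈ M)
  have hxk : xa + k ≤ 2 ^ #I := by
    rw [← hkI, hxa]
    refine Nat.add_le_add_right (card_le_card fun P hP => ?_) _
    rw [mem_filter] at hP ⊢
    exact ⟨mem_powerset.2 hP.2, hXM hP.1⟩
  have hyl : ya + l ≤ 2 ^ #J := by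
    rw [← hlJ, hya]
    refine Nat.add_le_add_right (card_le_card fun P hP => ?_) _
    rw [mem_filter] at hP ⊢
    exact ⟨mem_powerset.2 hP.2, hYM hP.1⟩
  have hcost : #(I.powerset.filter fun S => S ∈ M) + #(J.powerset.filter fun S => S ∈ M) + w ≤
      #M + 1 := by
    have h1 := card_union_add_card_inter (I.powerset.filter fun S => S ∈ M)
      (J.powerset.filter fun S => S ∈ M)
    have h2 : #((I.powerset.filter fun S => S ∈ M) ∩ (J.powerset.filter fun S => S ∈ M)) ≤ 1 := by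
      rw [← card_singleton (∅ : Finset V)]
      refine card_le_card fun P hP => ?_
      rw [mem_inter, mem_filter, mem_filter, mem_powerset, mem_powerset] at hP
      rw [mem_singleton, eq_empty_iff_forall_notMem]
      intro j hj
      exact disjoint_left.1 hIJ (hP.1.1 hj) (hP.2.1 hj)
    have h3 : #((I.powerset.filter fun S => S ∈ M) ∪ (J.powerset.filter fun S => S ∈ M)) + w ≤
        #M := by
      rw [hw, ← card_union_of_disjoint]
      · refine card_le_card fun P hP => ?_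
        simp only [mem_union, mem_filter] at hP
        tauto
      · rw [disjoint_left]
        intro P hP1 hP2
        simp only [mem_union, mem_filter, mem_powerset] at hP1 hP2
        tauto
    omega
  have hs : w + 1 ≤ k + l := by
    have h1 : 2 ^ #I + 2 ^ #J = 3 * N := by
      rcases hab with ⟨h1, h2⟩ | ⟨h1, h2⟩
      · rw [h1, h2, hN, pow_succ]; ring
      · rw [h1, h2, hN, pow_succ]; ring
    omega
  have rs : (w : ℝ) ≤ k + l - 1 := by
    have : (w : ℝ) + 1 ≤ k + l := by exact_mod_cast hs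
    linarith
  have rNpos : (0 : ℝ) < N := by linarith
  rcases hab with ⟨h1, h2⟩ | ⟨h1, h2⟩
  · have e1 : (2 : ℕ) ^ #I = 2 * N := by rw [h1, hN, pow_succ]; ring
    have e2 : (2 : ℕ) ^ #J = N := by rw [h2, hN]
    rw [e1] at hxk
    rw [e2] at hyl
    have f1 : (xa : ℝ) + k ≤ 2 * N := by exact_mod_cast hxk
    have f2 : (ya : ℝ) + l ≤ N := by exact_mod_cast hyl
    have e1' : (2 : ℝ) ^ #I = 2 * N := by exact_mod_cast e1
    have e2' : (2 : ℝ) ^ #J = N := by exact_mod_cast e2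
    have hR' : (2 : ℝ) ^ #J * (3 * k - w) ≤ 4 * k + 4 * k * w + w ^ 2 := by exact_mod_cast hR
    have hC' : (2 : ℝ) ^ #I * (3 * l - w) ≤ 4 * l + 4 * l * w + w ^ 2 := by exact_mod_cast hC
    rw [e2'] at hR'
    rw [e1'] at hC'
    have hxa0 : (0 : ℝ) ≤ xa := by positivity
    have hya0 : (0 : ℝ) ≤ ya := by positivity
    refine num5 (k := k) (l := l) (w := w) rNpos (by positivity) (by positivity) (by positivity)
      (by linarith) (by linarith) ?_ rs hR' hC' ?_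
    · rcases le_or_gt l k with h | h
      · left; exact_mod_cast h
      · right; exact_mod_cast h
    · refine key.trans ?_
      exact mul_le_mul (by linarith) (by linarith) hya0 (by linarith)
  · have e1 : (2 : ℕ) ^ #J = 2 * N := by rw [h2, hN, pow_succ]; ring
    have e2 : (2 : ℕ) ^ #I = N := by rw [h1, hN]
    rw [e1] at hyl
    rw [e2] at hxk
    have f1 : (ya : ℝ) + l ≤ 2 * N := by exact_mod_cast hyl
    have f2 : (xa : ℝ) + k ≤ N := by exact_mod_cast hxk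
    have e1' : (2 : ℝ) ^ #J = 2 * N := by exact_mod_cast e1
    have e2' : (2 : ℝ) ^ #I = N := by exact_mod_cast e2
    have hR' : (2 : ℝ) ^ #J * (3 * k - w) ≤ 4 * k + 4 * k * w + w ^ 2 := by exact_mod_cast hR
    have hC' : (2 : ℝ) ^ #I * (3 * l - w) ≤ 4 * l + 4 * l * w + w ^ 2 := by exact_mod_cast hC
    rw [e1'] at hR'
    rw [e2'] at hC'
    have hxa0 : (0 : ℝ) ≤ xa := by positivity
    have hya0 : (0 : ℝ) ≤ ya := by positivity
    refine num5 (k := l) (l := k) (w := w) rNpos (by positivity) (by positivity) (by positivity)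
      (by linarith) (by linarith) ?_ (by linarith) hC' hR' ?_
    · rcases le_or_gt k l with h | h
      · left; exact_mod_cast h
      · right; exact_mod_cast h
    · refine le_trans key ?_
      rw [mul_comm (xa : ℝ)]
      exact mul_le_mul (by linarith) (by linarith) hxa0 (by linarith)

end Pool.Agent.R101.CS
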