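import Pool.Agent.R59.DA.Stm

/-!
# DA-STR (MP_cbc67c_co): the structure step of the directed Andrasfai-Erdos-Sos theorem
-/

namespace R101.DA

open Classical R59.DA

theorem mem_outIn {V : Type} {D : V → V → Prop} {S : Finset V} {v w : V} :
    w ∈ outIn D S v ↔ w ∈ S ∧ D v w := by
  unfold outIn
  rw [Finset.mem_filter]

theorem str (h : SGR) : SSTR := by
  intro k V D S μ hirr hμ hm hT hdeg hcol A hAS hAdis hAind hAcard
  -- a set without out-neighbours of `v` is small
  have small : ∀ v ∈ S, ∀ I : Finset V, I ⊆ S → (∀ w ∈ I, ¬ D v w) → (I.card : ℝ) < 3 * μ := by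
    intro v hv I hI hw
    have hdis : Disjoint I (outIn D S v) := by
      rw [Finset.disjoint_left]
      intro w hwI hwo
      exact hw w hwI (mem_outIn.1 hwo).2
    have hle : (I ∪ outIn D S v).card ≤ S.card := by
      refine Finset.card_le_card (Finset.union_subset hI ?_)
      intro w hw
      exact (mem_outIn.1 hw).1
    rw [Finset.card_union_of_disjoint hdis] at hle
    have hle' : (I.card : ℝ) + (outIn D S v).card ≤ S.card := by exact_mod_cast hle
    linarith [hdeg v hv]
  -- every out-neighbourhood misses some `A i`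
  have claim1 : ∀ x ∈ S, ∃ i, Disjoint (outIn D S x) (A i) := by
    intro x hx
    by_contra hcon
    push Not at hcon
    obtain ⟨c, hc⟩ := hcol x hx
    set N := outIn D S x with hN
    have hNS : N ⊆ S := fun w hw => (mem_outIn.1 hw).1
    have hNc : (3 * (k : ℝ) + 2) * μ < N.card := by
      have := hdeg x hx
      nlinarith
    set P : Fin (k + 1) → Finset V := fun j => N.filter (fun w => c w = j) with hP
    have hPN : ∀ j, P j ⊆ N := fun j => Finset.filter_subset _ _
    have hPind : ∀ j, ∀ u ∈ P j, ∀ v ∈ P j, ¬ D u v := by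
      intro j u hu v hv huv
      have hu' := Finset.mem_filter.1 hu
      have hv' := Finset.mem_filter.1 hv
      exact hc u hu'.1 v hv'.1 huv (hu'.2.trans hv'.2.symm)
    have hPle : ∀ j, ((P j).card : ℝ) ≤ 3 * μ := by
      intro j
      rcases (P j).eq_empty_or_nonempty with he | ⟨u, hu⟩
      · rw [he, Finset.card_empty, Nat.cast_zero]; linarith
      · exact (small u (hNS (hPN j hu)) (P j) ((hPN j).trans hNS) (fun w hw => hPind j u hu w hw)).le
    have hsum : ∑ j, ((P j).card : ℝ) = N.card := by
      have := Finset.card_eq_sum_card_fiberwise (f := c) (s := N) (t := Finset.univ)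
        (fun _ _ => Finset.mem_coe.2 (Finset.mem_univ _))
      rw [this, Nat.cast_sum]
    have hPgt : ∀ j, 2 * μ < ((P j).card : ℝ) := by
      intro j
      have h1 : ∑ j' ∈ Finset.univ.erase j, ((P j').card : ℝ) ≤ k * (3 * μ) := by
        have := Finset.sum_le_card_nsmul (Finset.univ.erase j) (fun j' => ((P j').card : ℝ)) (3 * μ)
          (fun j' _ => hPle j')
        rw [Finset.card_erase_of_mem (Finset.mem_univ _), Finset.card_univ, Fintype.card_fin,
          Nat.add_sub_cancel, nsmul_eq_mul] at this
        exact this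
      have h2 := Finset.add_sum_erase Finset.univ (fun j' => ((P j').card : ℝ)) (Finset.mem_univ j)
      rw [hsum] at h2
      nlinarith
    have hex : ∀ i, ∃ a, a ∈ N ∧ a ∈ A i := by
      intro i
      have := hcon i
      rw [Finset.not_disjoint_iff] at this
      exact this
    choose a haN haA using hex
    obtain ⟨i, i', hii, hcc⟩ := Fintype.exists_ne_map_eq_of_card_lt (fun i => c (a i))
      (by rw [Fintype.card_fin, Fintype.card_fin]; omega)
    have key : ∀ l, c (a l) = c (a i) → ((A l ∪ P (c (a i))).card : ℝ) < 3 * μ := by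
      intro l hl
      have hal : a l ∈ P (c (a i)) := Finset.mem_filter.2 ⟨haN l, hl⟩
      refine small (a l) (hNS (haN l)) _ (Finset.union_subset (hAS l) ((hPN _).trans hNS)) ?_
      intro w hw
      rcases Finset.mem_union.1 hw with hw | hw
      · exact hAind l _ (haA l) w hw
      · exact hPind _ _ hal w hw
    have k1 := key i rfl
    have k2 := key i' hcc.symm
    set Q := P (c (a i)) with hQ
    have e1 := Finset.card_union_add_card_inter (A i) Q
    have e2 := Finset.card_union_add_card_inter (A i') Q
    have e3 : (A i ∩ Q).card + (A i' ∩ Q).card ≤ Q.card := by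
      rw [← Finset.card_union_of_disjoint]
      · exact Finset.card_le_card (Finset.union_subset Finset.inter_subset_right
          Finset.inter_subset_right)
      · exact Finset.disjoint_of_subset_left Finset.inter_subset_left
          (Finset.disjoint_of_subset_right Finset.inter_subset_left (hAdis i i' hii))
    have e1' : ((A i ∪ Q).card : ℝ) + (A i ∩ Q).card = (A i).card + Q.card := by exact_mod_cast e1
    have e2' : ((A i' ∪ Q).card : ℝ) + (A i' ∩ Q).card = (A i').card + Q.card := by exact_mod_cast e2
    have e3' : ((A i ∩ Q).card : ℝ) + (A i' ∩ Q).card ≤ Q.card := by exact_mod_cast e3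
    have g1 := hAcard i
    have g2 := hAcard i'
    have g3 := hPgt (c (a i))
    rw [← hQ] at g3
    linarith
  refine ⟨fun x => if hx : x ∈ S then Classical.choose (claim1 x hx) else 0, ?_⟩
  intro x hx y hy hxy hcc
  simp only [dif_pos hx, dif_pos hy] at hcc
  have d1 := Classical.choose_spec (claim1 x hx)
  have d2 := Classical.choose_spec (claim1 y hy)
  rw [← hcc] at d2
  set i := Classical.choose (claim1 x hx) with hi
  set Nx := outIn D S x with hNx
  set Ny := outIn D S y with hNy
  have hNxS : Nx ⊆ S := fun w hw => (mem_outIn.1 hw).1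
  have hNyS : Ny ⊆ S := fun w hw => (mem_outIn.1 hw).1
  have e1 := Finset.card_union_add_card_inter Nx Ny
  have e2 : (Nx ∪ Ny).card + (A i).card ≤ S.card := by
    rw [← Finset.card_union_of_disjoint (Finset.disjoint_union_left.2 ⟨d1, d2⟩)]
    exact Finset.card_le_card (Finset.union_subset (Finset.union_subset hNxS hNyS) (hAS i))
  have e1' : ((Nx ∪ Ny).card : ℝ) + (Nx ∩ Ny).card = Nx.card + Ny.card := by exact_mod_cast e1
  have e2' : ((Nx ∪ Ny).card : ℝ) + (A i).card ≤ S.card := by exact_mod_cast e2
  have g1 := hdeg x hx
  have g2 := hdeg y hy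
  have g3 := hAcard i
  have hX : 3 * μ * k < ((Nx ∩ Ny).card : ℝ) := by nlinarith
  obtain ⟨f, hf, hff⟩ := h V D S (3 * μ) (by linarith) hdeg k (Nx ∩ Ny)
    (Finset.inter_subset_left.trans hNxS) hX
  have hfx : ∀ j, D x (f j) := fun j => (mem_outIn.1 (Finset.mem_inter.1 (hf j)).1).2
  have hfy : ∀ j, D y (f j) := fun j => (mem_outIn.1 (Finset.mem_inter.1 (hf j)).2).2
  have hfS : ∀ j, f j ∈ S := fun j => (mem_outIn.1 (Finset.mem_inter.1 (hf j)).1).1
  apply hT
  refine ⟨Fin.cons x (Fin.cons y f : Fin (k + 2) → V), ?_, ?_⟩
  · intro j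
    refine Fin.cases ?_ (fun j => ?_) j
    · exact hx
    · rw [Fin.cons_succ]
      refine Fin.cases ?_ (fun j => ?_) j
      · exact hy
      · rw [Fin.cons_succ]
        exact hfS j
  · intro j l
    refine Fin.cases ?_ (fun j => ?_) j
    · refine Fin.cases ?_ (fun l => ?_) l
      · intro h0
        exact absurd h0 (lt_irrefl _)
      · intro _
        rw [Fin.cons_zero, Fin.cons_succ]
        refine Fin.cases ?_ (fun l => ?_) l
        · exact hxy
        · rw [Fin.cons_succ]
          exact hfx l
    · refine Fin.cases ?_ (fun l => ?_) l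
      · intro h0
        exact absurd h0 (Fin.not_lt_zero _)
      · intro hjl
        rw [Fin.cons_succ, Fin.cons_succ]
        rw [Fin.succ_lt_succ_iff] at hjl
        revert hjl
        refine Fin.cases ?_ (fun j => ?_) j
        · refine Fin.cases ?_ (fun l => ?_) l
          · intro h0
            exact absurd h0 (lt_irrefl _)
          · intro _
            rw [Fin.cons_zero, Fin.cons_succ]
            exact hfy l
        · refine Fin.cases ?_ (fun l => ?_) l
          · intro h0
            exact absurd h0 (Fin.not_lt_zero _)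
          · intro hjl
            rw [Fin.cons_succ, Fin.cons_succ]
            exact hff j l (Fin.succ_lt_succ_iff.1 hjl)

end R101.DA
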