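import Mathlib

/-!
# Two distant families of sets

If all `A ∈ 𝒜` and `B ∈ ℬ` (subsets of an `n`-set) have `|A ∆ B| ≥ t`, then
`|𝒜| |ℬ| q ^ t ≤ ((1 + q) ^ 2 / q) ^ n` for all real `q ≥ 1`.
-/

set_option autoImplicit false

open Finset
open scoped FinsetFamily symmDiff

namespace Pool.Agent.R101.Dist

variable {α : Type*} [DecidableEq α]

/-- the elementary inequality of the induction step -/
lemma step (q M x y z w : ℝ) (hq : 1 ≤ q) (hM : 0 ≤ M) (hx : 0 ≤ x) (hy : 0 ≤ y)
    (hz : 0 ≤ z) (hw : 0 ≤ w)
    (h1 : x * z ≤ M) (h2 : y * w ≤ M) (h3 : x * w ≤ q * M) (h4 : y * z ≤ q * M) :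
    (x + y) * (z + w) ≤ (1 + q) ^ 2 / q * M := by
  have hq0 : 0 < q := by linarith
  have key : x * w + y * z ≤ (q + 1 / q) * M := by
    set s := x * w with hs
    set r := y * z with hr
    have hs0 : 0 ≤ s := mul_nonneg hx hw
    have hr0 : 0 ≤ r := mul_nonneg hy hz
    have hsr : s * r ≤ M * M := by
      have : s * r = (x * z) * (y * w) := by rw [hs, hr]; ring
      rw [this]
      exact mul_le_mul h1 h2 (mul_nonneg hy hw) hM
    rcases eq_or_lt_of_le hM with hM0 | hM0
    · rw [← hM0] at h3 h4 ⊢
      simp only [mul_zero] at h3 h4 ⊢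
      linarith
    -- (q M - s) (q M - r) ≥ 0 and s r ≤ M ^ 2
    have h5 : 0 ≤ (q * M - s) * (q * M - r) := mul_nonneg (by linarith) (by linarith)
    have h6 : q * M * (s + r) ≤ q ^ 2 * M ^ 2 + M ^ 2 := by nlinarith
    have h7 : (q + 1 / q) * M = (q ^ 2 * M ^ 2 + M ^ 2) / (q * M) := by
      field_simp
    rw [h7, le_div_iff₀ (by positivity)]
    linarith
  have h8 : (1 + q) ^ 2 / q = 2 + (q + 1 / q) := by
    field_simp
    ring
  rw [h8]
  nlinarith

theorem main (q : ℝ) (hq : 1 ≤ q) (s : Finset α) : ∀ (t : ℕ) (A B : Finset (Finset α)),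
    (∀ a ∈ A, a ⊆ s) → (∀ b ∈ B, b ⊆ s) → (∀ a ∈ A, ∀ b ∈ B, t ≤ #(a ∆ b)) →
    (#A : ℝ) * #B * q ^ t ≤ ((1 + q) ^ 2 / q) ^ #s := by
  have hq0 : 0 < q := by linarith
  have hfour : (4 : ℝ) ≤ (1 + q) ^ 2 / q := by
    rw [le_div_iff₀ hq0]
    nlinarith [sq_nonneg (q - 1)]
  induction s using Finset.induction_on with
  | empty =>
    intro t A B hA hB hAB
    have hA1 : A ⊆ {∅} := fun a ha => mem_singleton.2 (subset_empty.1 (hA a ha))
    have hB1 : B ⊆ {∅} := fun a ha => mem_singleton.2 (subset_empty.1 (hB a ha))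
    rcases A.eq_empty_or_nonempty with rfl | ⟨a, ha⟩
    · simp
    rcases B.eq_empty_or_nonempty with rfl | ⟨b, hb⟩
    · simp
    have h := hAB a ha b hb
    rw [mem_singleton.1 (hA1 ha), mem_singleton.1 (hB1 hb)] at h
    simp only [symmDiff_self, bot_eq_empty, card_empty, Nat.le_zero] at h
    subst h
    have h1 : (#A : ℝ) ≤ 1 := by exact_mod_cast (card_le_card hA1).trans (by simp)
    have h2 : (#B : ℝ) ≤ 1 := by exact_mod_cast (card_le_card hB1).trans (by simp)
    simp only [pow_zero, mul_one, card_empty]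
    nlinarith [(Nat.cast_nonneg (#A) : (0 : ℝ) ≤ #A), (Nat.cast_nonneg (#B) : (0 : ℝ) ≤ #B)]
  | @insert e s he ih =>
    intro t A B hA hB hAB
    rw [card_insert_of_notMem he]
    rcases Nat.eq_zero_or_pos t with rfl | ht
    · have hA2 : (#A : ℝ) ≤ 2 ^ (#s + 1) := by
        have : A ⊆ (insert e s).powerset := fun a ha => mem_powerset.2 (hA a ha)
        have := card_le_card this
        rw [card_powerset, card_insert_of_notMem he] at this
        exact_mod_cast this
      have hB2 : (#B : ℝ) ≤ 2 ^ (#s + 1) := by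
        have : B ⊆ (insert e s).powerset := fun a ha => mem_powerset.2 (hB a ha)
        have := card_le_card this
        rw [card_powerset, card_insert_of_notMem he] at this
        exact_mod_cast this
      calc (#A : ℝ) * #B * q ^ 0 ≤ 2 ^ (#s + 1) * 2 ^ (#s + 1) := by
            rw [pow_zero, mul_one]
            exact mul_le_mul hA2 hB2 (by positivity) (by positivity)
        _ = 4 ^ (#s + 1) := by
            rw [← mul_pow]; norm_num
        _ ≤ _ := pow_le_pow_left₀ (by norm_num) hfour _
    · obtain ⟨u, rfl⟩ : ∃ u, t = u + 1 := ⟨t - 1, by omega⟩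
      set A1 := A.memberSubfamily e
      set A0 := A.nonMemberSubfamily e
      set B1 := B.memberSubfamily e
      set B0 := B.nonMemberSubfamily e
      have hcA : (#A : ℝ) = #A1 + #A0 := by
        exact_mod_cast (card_memberSubfamily_add_card_nonMemberSubfamily e A).symm
      have hcB : (#B : ℝ) = #B1 + #B0 := by
        exact_mod_cast (card_memberSubfamily_add_card_nonMemberSubfamily e B).symm
      have sub1 : ∀ F : Finset (Finset α), (∀ a ∈ F, a ⊆ insert e s) →
          ∀ a ∈ F.memberSubfamily e, a ⊆ s := by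
        intro F hF a ha
        rw [mem_memberSubfamily] at ha
        intro y hy
        rcases mem_insert.1 (hF _ ha.1 (mem_insert_of_mem hy)) with h | h
        · exact absurd (h ▸ hy) ha.2
        · exact h
      have sub0 : ∀ F : Finset (Finset α), (∀ a ∈ F, a ⊆ insert e s) →
          ∀ a ∈ F.nonMemberSubfamily e, a ⊆ s := by
        intro F hF a ha
        rw [mem_nonMemberSubfamily] at ha
        intro y hy
        rcases mem_insert.1 (hF _ ha.1 hy) with h | h
        · exact absurd (h ▸ hy) ha.2
        · exact h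
      have e11 : ∀ a b : Finset α, e ∉ a → e ∉ b → insert e a ∆ insert e b = a ∆ b := by
        intro a b ha hb
        ext y
        simp only [mem_symmDiff, mem_insert]
        by_cases hy : y = e
        · subst hy; simp [ha, hb]
        · simp [hy]
      have e10 : ∀ a b : Finset α, e ∉ a → e ∉ b → #(insert e a ∆ b) = #(a ∆ b) + 1 := by
        intro a b ha hb
        have h1 : insert e a ∆ b = insert e (a ∆ b) := by
          ext y
          simp only [mem_symmDiff, mem_insert]
          by_cases hy : y = e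
          · subst hy; simp [ha, hb]
          · simp [hy]
        rw [h1, card_insert_of_notMem]
        simp [mem_symmDiff, ha, hb]
      set K := ((1 + q) ^ 2 / q) ^ #s with hK
      have hK0 : 0 ≤ K := by positivity
      have h11 := ih (u + 1) A1 B1 (sub1 A hA) (sub1 B hB) (by
        intro a ha b hb
        rw [mem_memberSubfamily] at ha hb
        have := hAB _ ha.1 _ hb.1
        rwa [e11 a b ha.2 hb.2] at this)
      have h00 := ih (u + 1) A0 B0 (sub0 A hA) (sub0 B hB) (by
        intro a ha b hb
        rw [mem_nonMemberSubfamily] at ha hb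
        exact hAB _ ha.1 _ hb.1)
      have h10 := ih u A1 B0 (sub1 A hA) (sub0 B hB) (by
        intro a ha b hb
        rw [mem_memberSubfamily] at ha
        rw [mem_nonMemberSubfamily] at hb
        have := hAB _ ha.1 _ hb.1
        rw [e10 a b ha.2 hb.2] at this
        omega)
      have h01 := ih u A0 B1 (sub0 A hA) (sub1 B hB) (by
        intro a ha b hb
        rw [mem_memberSubfamily] at hb
        rw [mem_nonMemberSubfamily] at ha
        have := hAB _ ha.1 _ hb.1
        rw [symmDiff_comm, e10 b a hb.2 ha.2, symmDiff_comm] at this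
        omega)
      have hqu : 0 < q ^ (u + 1) := by positivity
      have hqu' : 0 < q ^ u := by positivity
      have hst := step q (K / q ^ (u + 1)) (#A1) (#A0) (#B1) (#B0) hq (by positivity)
        (by positivity) (by positivity) (by positivity) (by positivity)
        (by rw [le_div_iff₀ hqu]; exact h11) (by rw [le_div_iff₀ hqu]; exact h00)
        (by
          have : q * (K / q ^ (u + 1)) = K / q ^ u := by
            rw [pow_succ]; field_simp
          rw [this, le_div_iff₀ hqu']; exact h10)
        (by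
          have : q * (K / q ^ (u + 1)) = K / q ^ u := by
            rw [pow_succ]; field_simp
          rw [this, le_div_iff₀ hqu']; exact h01)
      rw [hcA, hcB, pow_succ ((1 + q) ^ 2 / q) (#s)]
      have h9 : (1 + q) ^ 2 / q * (K / q ^ (u + 1)) * q ^ (u + 1) = K * ((1 + q) ^ 2 / q) := by
        field_simp
      calc ((#A1 : ℝ) + #A0) * (#B1 + #B0) * q ^ (u + 1)
          ≤ ((1 + q) ^ 2 / q * (K / q ^ (u + 1))) * q ^ (u + 1) :=
            mul_le_mul_of_nonneg_right hst hqu.le
        _ = _ := h9

end Pool.Agent.R101.Dist
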